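import Pool.Agent.K4H23.NZ.Spec

set_option autoImplicit false

open Finset Pointwise

namespace Pool.Agent.K4H23.NZ

theorem c1 {e : ℕ} (he : 1 ≤ e) {M : ℝ} (hM : 0 ≤ M) : ConcaveOn ℝ (Set.Ici 0) (g e M) := by
  have heR : (0 : ℝ) < e := by exact_mod_cast he
  have h1 : ∀ s : Finset ℕ, (∀ j ∈ s, j ≤ e) →
      ConcaveOn ℝ (Set.Ici 0) (fun v : ℝ => ∑ j ∈ s, ((e.choose j : ℝ) * M ^ (e - j)) * v ^ ((j : ℝ) / e)) := by
    intro s
    induction s using Finset.induction_on with
    | empty =>
      intro _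
      simpa using concaveOn_const (0 : ℝ) (convex_Ici (0 : ℝ))
    | insert j s hj ih =>
      intro h
      simp only [Finset.sum_insert hj]
      refine ConcaveOn.add ?_ (ih fun i hi => h i (Finset.mem_insert_of_mem hi))
      have hje : (j : ℝ) / e ≤ 1 := by
        rw [div_le_one heR]
        exact_mod_cast h j (Finset.mem_insert_self _ _)
      have := (Real.concaveOn_rpow (p := (j : ℝ) / e) (by positivity) hje).smul
        (c := (e.choose j : ℝ) * M ^ (e - j)) (by positivity)
      simpa using this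
  have h2 := h1 (Finset.range (e + 1)) (fun j hj => Nat.lt_succ_iff.1 (Finset.mem_range.1 hj))
  refine h2.congr ?_
  intro v hv
  have hv0 : (0 : ℝ) ≤ v := hv
  unfold g
  rw [add_pow]
  refine Finset.sum_congr rfl fun j hj => ?_
  rw [← Real.rpow_natCast (v ^ (1 / (e : ℝ))) j, ← Real.rpow_mul hv0]
  have : 1 / (e : ℝ) * j = j / e := by ring
  rw [this]
  ring

end Pool.Agent.K4H23.NZ
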