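import Pool.Agent.K4H23.NZ.Spec

set_option autoImplicit false

open Finset Pointwise

namespace Pool.Agent.K4H23.NZ

namespace S2

theorem mem_slab {e M m : ℕ} {x : Fin (e + 1) → ℤ} :
    x ∈ slab e M m ↔ (0 ≤ x 0 ∧ x 0 ≤ m) ∧ ∀ i : Fin e, 0 ≤ x i.succ ∧ x i.succ ≤ M := by
  unfold slab
  rw [Finset.mem_Icc, Pi.le_def, Pi.le_def, Fin.forall_fin_succ, Fin.forall_fin_succ]
  simp only [Pi.zero_apply, Fin.cons_zero, Fin.cons_succ]
  constructor
  · rintro ⟨⟨h1, h2⟩, h3, h4⟩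
    exact ⟨⟨h1, h3⟩, fun i => ⟨h2 i, h4 i⟩⟩
  · rintro ⟨⟨h1, h2⟩, h3⟩
    exact ⟨⟨h1, fun i => (h3 i).1⟩, h2, fun i => (h3 i).2⟩

theorem mem_seg {e m : ℕ} {x : Fin (e + 1) → ℤ} :
    x ∈ seg e m ↔ (0 ≤ x 0 ∧ x 0 ≤ m) ∧ ∀ i : Fin e, x i.succ = 0 := by
  unfold seg
  rw [Finset.mem_Icc, Pi.le_def, Pi.le_def, Fin.forall_fin_succ, Fin.forall_fin_succ]
  simp only [Pi.zero_apply, Fin.cons_zero, Fin.cons_succ]
  constructor
  · rintro ⟨⟨h1, h2⟩, h3, h4⟩
    exact ⟨⟨h1, h3⟩, fun i => le_antisymm (h4 i) (h2 i)⟩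
  · rintro ⟨⟨h1, h2⟩, h3⟩
    exact ⟨⟨h1, fun i => (h3 i).ge⟩, h2, fun i => (h3 i).le⟩

theorem mem_cube {e M : ℕ} {x : Fin e → ℤ} : x ∈ cube e M ↔ ∀ i : Fin e, 0 ≤ x i ∧ x i ≤ M := by
  unfold cube
  rw [Finset.mem_Icc, Pi.le_def, Pi.le_def]
  simp only [Pi.zero_apply]
  exact ⟨fun h i => ⟨h.1 i, h.2 i⟩, fun h => ⟨fun i => (h i).1, fun i => (h i).2⟩⟩

theorem cons_mem {e M : ℕ} {c : Fin e → ℤ} (hc : c ∈ cube e M) :
    (Fin.cons 0 c : Fin (e + 1) → ℤ) ∈ slab e M 0 := by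
  rw [mem_cube] at hc
  rw [mem_slab]
  simpa using hc

end S2

open S2

theorem s2_of {e : ℕ} (hs1 : ∀ (m : ℕ) (B : Finset (Fin (e + 1) → ℤ)),
    B.card + m * (B.image Fin.tail).card ≤ (B + seg e m).card) (M m : ℕ) (A : Finset (Fin (e + 1) → ℤ)) :
    ∑ t ∈ A.image (fun x => x 0), (slice A t + cube e M).card +
      m * (A.image Fin.tail + cube e M).card ≤ (A + slab e M m).card := by
  classical
  set B : Finset (Fin (e + 1) → ℤ) := A + slab e M 0 with hB
  have h1 : B + seg e m ⊆ A + slab e M m := by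
    intro x hx
    obtain ⟨b, hb, z, hz, rfl⟩ := Finset.mem_add.1 hx
    obtain ⟨a, ha, s, hs, rfl⟩ := Finset.mem_add.1 hb
    rw [add_assoc]
    refine Finset.add_mem_add ha ?_
    rw [mem_slab] at hs ⊢
    rw [mem_seg] at hz
    refine ⟨?_, fun i => ?_⟩
    · have := hs.1
      have := hz.1
      simp only [Pi.add_apply]
      push_cast at *
      constructor <;> linarith [hs.1.1, hs.1.2, hz.1.1, hz.1.2]
    · simp only [Pi.add_apply, hz.2 i, add_zero]
      exact hs.2 i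
  have h2 : A.image Fin.tail + cube e M ⊆ B.image Fin.tail := by
    intro x hx
    obtain ⟨y, hy, c, hc, rfl⟩ := Finset.mem_add.1 hx
    obtain ⟨a, ha, rfl⟩ := Finset.mem_image.1 hy
    refine Finset.mem_image.2 ⟨a + Fin.cons 0 c, Finset.add_mem_add ha (cons_mem hc), ?_⟩
    funext i
    simp [Fin.tail]
  have h3 : ∑ t ∈ A.image (fun x => x 0), (slice A t + cube e M).card ≤ B.card := by
    have hm : ∀ x ∈ B, x 0 ∈ A.image (fun x => x 0) := by
      intro x hx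
      obtain ⟨a, ha, s, hs, rfl⟩ := Finset.mem_add.1 hx
      refine Finset.mem_image.2 ⟨a, ha, ?_⟩
      rw [mem_slab] at hs
      have h0 : s 0 = 0 := by
        have := hs.1.1
        have := hs.1.2
        push_cast at *
        omega
      simp [h0]
    rw [Finset.card_eq_sum_card_fiberwise (f := fun x : Fin (e + 1) → ℤ => x 0) (s := B)
      (t := A.image (fun x => x 0)) (by exact fun x hx => hm x hx)]
    refine Finset.sum_le_sum fun t _ => ?_
    refine (Finset.card_le_card ?_).trans (Finset.card_image_le (f := (Fin.tail : (Fin (e + 1) → ℤ) → Fin e → ℤ)))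
    intro x hx
    obtain ⟨y, hy, c, hc, rfl⟩ := Finset.mem_add.1 hx
    unfold slice at hy
    obtain ⟨a, ha, rfl⟩ := Finset.mem_image.1 hy
    rw [Finset.mem_filter] at ha
    refine Finset.mem_image.2 ⟨a + Fin.cons 0 c, Finset.mem_filter.2
      ⟨Finset.add_mem_add ha.1 (cons_mem hc), ?_⟩, ?_⟩
    · simp [ha.2]
    · funext i
      simp [Fin.tail]
  calc ∑ t ∈ A.image (fun x => x 0), (slice A t + cube e M).card + m * (A.image Fin.tail + cube e M).card
      ≤ B.card + m * (B.image Fin.tail).card :=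
        Nat.add_le_add h3 (Nat.mul_le_mul_left _ (Finset.card_le_card h2))
    _ ≤ (B + seg e m).card := hs1 m B
    _ ≤ (A + slab e M m).card := Finset.card_le_card h1

end Pool.Agent.K4H23.NZ
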