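import Pool.Agent.K4H23.NZ.Spec

set_option autoImplicit false

open Finset Pointwise

namespace Pool.Agent.K4H23.NZ

namespace D3

theorem V_eq {e : ℕ} (he : 1 ≤ e) {M n : ℝ} {k : ℕ} (hk : 1 ≤ k) (hn : 0 ≤ n) :
    V e M k n = (n ^ (1 / (e : ℝ)) * (1 + 1 / (k : ℝ)) ^ (1 / (e : ℝ)) + M * ((k : ℝ) + 1) ^ (1 / (e : ℝ))) ^ e := by
  have hk0 : (0 : ℝ) < k := by exact_mod_cast hk
  have he0 : e ≠ 0 := by omega
  unfold V g
  have h1 : ((k : ℝ) + 1) = (((k : ℝ) + 1) ^ (1 / (e : ℝ))) ^ e := by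
    rw [one_div, Real.rpow_inv_natCast_pow (by positivity) he0]
  have h2 : (n / k) ^ (1 / (e : ℝ)) * ((k : ℝ) + 1) ^ (1 / (e : ℝ)) =
      n ^ (1 / (e : ℝ)) * (1 + 1 / (k : ℝ)) ^ (1 / (e : ℝ)) := by
    rw [← Real.mul_rpow (by positivity) (by positivity), ← Real.mul_rpow hn (by positivity)]
    congr 1
    field_simp
  rw [← h2]
  conv_lhs => rw [h1]
  rw [← mul_pow]
  congr 1
  ring

theorem root1 {e : ℕ} (he : 1 ≤ e) {x r : ℝ} (hx : 0 ≤ x) (hr : 0 ≤ r) :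
    (x * r ^ e) ^ (1 / (e : ℝ)) = x ^ (1 / (e : ℝ)) * r := by
  rw [Real.mul_rpow hx (by positivity), one_div, Real.pow_rpow_inv_natCast hr (by omega)]

end D3

open D3

theorem d3_of
    (hd2a : ∀ {e : ℕ} (_ : 1 ≤ e) {M n : ℝ} (_ : 0 < M) {k m : ℕ} (_ : 1 ≤ k) (_ : k < m)
      (_ : M ^ e * (m : ℝ) ^ (e + 1) ≤ n), V e M m n < V e M k n)
    (hd2b : ∀ {e : ℕ} (_ : 1 ≤ e) {M n : ℝ} (_ : 0 < M) {k m : ℕ} (_ : 1 ≤ k) (_ : k < m)
      (_ : 0 < n) (_ : n ≤ M ^ e * (k : ℝ) ^ (e + 1)), V e M k n < V e M m n)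
    {e M p : ℕ} (he : 1 ≤ e) (hM : 4 * e < M) (hp : 1 ≤ p) : ∃ r₁ r₂ : ℕ,
    r₂ < r₁ ∧ 1 ≤ r₂ ∧ p * r₁ ^ e < (p + 1) * r₂ ^ e ∧ M * p ≤ r₁ ∧ r₂ ≤ M * (p + 1) ∧
      V e M p ((p * r₁ ^ e : ℕ) : ℝ) < V e M (p + 1) ((p * r₁ ^ e : ℕ) : ℝ) ∧
      V e M (p + 1) (((p + 1) * r₂ ^ e : ℕ) : ℝ) < V e M p (((p + 1) * r₂ ^ e : ℕ) : ℝ) := by
  have he0 : e ≠ 0 := by omega
  have heR : (0 : ℝ) < e := by exact_mod_cast he
  have hpR : (0 : ℝ) < p := by exact_mod_cast hp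
  have hp1 : (1 : ℝ) ≤ p := by exact_mod_cast hp
  have hMR : (0 : ℝ) < M := by
    have : 0 < M := by omega
    exact_mod_cast this
  have hMe : 4 * (e : ℝ) < M := by exact_mod_cast hM
  set a : ℝ := 1 / (e : ℝ) with ha
  have ha0 : 0 < a := by positivity
  have ha1 : a ≤ 1 := by
    rw [ha, div_le_one heR]
    exact_mod_cast he
  set A : ℝ := (1 + 1 / (p : ℝ)) ^ a with hA
  set B : ℝ := (1 + 1 / ((p : ℝ) + 1)) ^ a with hB
  set C : ℝ := ((p : ℝ) + 1) ^ a with hC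
  set D : ℝ := ((p : ℝ) + 1 + 1) ^ a with hD
  set P : ℝ := (p : ℝ) ^ a with hP
  have hP0 : 0 < P := Real.rpow_pos_of_pos hpR _
  have hC0 : 0 < C := Real.rpow_pos_of_pos (by positivity) _
  have hAB : 0 < A - B := by
    have : B < A := by
      apply Real.rpow_lt_rpow (by positivity) _ ha0
      have : 1 / ((p : ℝ) + 1) < 1 / (p : ℝ) := one_div_lt_one_div_of_lt hpR (by linarith)
      linarith
    linarith
  set T : ℝ := M * (D - C) / (A - B) with hT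
  have key1 : ∀ n : ℝ, 0 ≤ n → (V e M p n < V e M (p + 1) n ↔ n ^ a < T) := by
    intro n hn
    have hna : 0 ≤ n ^ a := Real.rpow_nonneg hn _
    rw [V_eq he hp hn, V_eq he (by omega : 1 ≤ p + 1) hn, hT, lt_div_iff₀ hAB]
    push_cast
    rw [← ha, ← hA, ← hB, ← hC, ← hD, pow_lt_pow_iff_left₀ (by positivity) (by positivity) he0]
    constructor <;> intro h <;> nlinarith
  have key2 : ∀ n : ℝ, 0 ≤ n → (V e M (p + 1) n < V e M p n ↔ T < n ^ a) := by
    intro n hn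
    have hna : 0 ≤ n ^ a := Real.rpow_nonneg hn _
    rw [V_eq he hp hn, V_eq he (by omega : 1 ≤ p + 1) hn, hT, div_lt_iff₀ hAB]
    push_cast
    rw [← ha, ← hA, ← hB, ← hC, ← hD, pow_lt_pow_iff_left₀ (by positivity) (by positivity) he0]
    constructor <;> intro h <;> nlinarith
  -- bounds for `T`
  have hT1 : M * p * P < T := by
    have h := hd2b he hMR hp (Nat.lt_succ_self p) (n := (M : ℝ) ^ e * (p : ℝ) ^ (e + 1)) (by positivity) le_rfl
    rw [Nat.succ_eq_add_one, key1 _ (by positivity)] at h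
    have e1 : (M : ℝ) ^ e * (p : ℝ) ^ (e + 1) = p * ((M : ℝ) * p) ^ e := by rw [mul_pow]; ring
    rw [e1, ha, root1 he hpR.le (by positivity), ← ha, ← hP] at h
    linarith
  have hT2 : T < M * (p + 1) * C := by
    have h := hd2a he hMR hp (Nat.lt_succ_self p)
      (n := (M : ℝ) ^ e * ((p : ℝ) + 1) ^ (e + 1)) (by push_cast; exact le_rfl)
    rw [Nat.succ_eq_add_one, key2 _ (by positivity)] at h
    have e1 : (M : ℝ) ^ e * ((p : ℝ) + 1) ^ (e + 1) = ((p : ℝ) + 1) * ((M : ℝ) * (p + 1)) ^ e := by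
      rw [mul_pow]; ring
    rw [e1, ha, root1 he (by positivity) (by positivity), ← ha, ← hC] at h
    linarith
  have hTP : (M : ℝ) * p < T / P := by rwa [lt_div_iff₀ hP0]
  have hTC : T / C < M * (p + 1) := by rwa [div_lt_iff₀ hC0]
  have hT0 : 0 < T := lt_trans (by positivity) hT1
  have hTP0 : 0 < T / P := by positivity
  have hTC0 : 0 < T / C := by positivity
  -- the difference
  have hdiff : 2 < T / P - T / C := by
    have h1 : P / C = (1 + (-1 / ((p : ℝ) + 1))) ^ a := by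
      rw [hP, hC, ← Real.div_rpow hpR.le (by positivity)]
      congr 1
      field_simp
      ring
    have h2 : P / C ≤ 1 + a * (-1 / ((p : ℝ) + 1)) := by
      rw [h1]
      refine rpow_one_add_le_one_add_mul_self ?_ ha0.le ha1
      rw [neg_div, neg_le_neg_iff, div_le_one (by positivity)]
      linarith
    have h3 : T / P - T / C = T / P * (1 - P / C) := by field_simp
    have h4 : a / (p + 1) ≤ 1 - P / C := by
      have : a * (-1 / ((p : ℝ) + 1)) = -(a / (p + 1)) := by ring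
      linarith
    have h5 : 2 < (M : ℝ) * p * (a / (p + 1)) := by
      rw [ha]
      have : (M : ℝ) * p * (1 / (e : ℝ) / (p + 1)) = M * p / (e * (p + 1)) := by
        field_simp
      rw [this, lt_div_iff₀ (by positivity)]
      nlinarith [mul_le_mul_of_nonneg_left hp1 heR.le, mul_lt_mul_of_pos_right hMe hpR]
    rw [h3]
    calc (2 : ℝ) < (M : ℝ) * p * (a / (p + 1)) := h5
      _ ≤ T / P * (1 - P / C) := mul_le_mul hTP.le h4 (by positivity) hTP0.le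
  -- the numbers
  have hc1 : 1 ≤ ⌈T / P⌉₊ := Nat.one_le_ceil_iff.2 hTP0
  obtain ⟨r₁, hr₁⟩ : ∃ r₁ : ℕ, ⌈T / P⌉₊ = r₁ + 1 := ⟨⌈T / P⌉₊ - 1, by omega⟩
  have hr1a : (r₁ : ℝ) < T / P := by
    have := Nat.ceil_lt_add_one hTP0.le
    rw [hr₁] at this
    push_cast at this
    linarith
  have hr1b : T / P ≤ (r₁ : ℝ) + 1 := by
    have := Nat.le_ceil (T / P)
    rw [hr₁] at this
    push_cast at this
    exact this
  set r₂ : ℕ := ⌊T / C⌋₊ + 1 with hr₂
  have hr2a : T / C < (r₂ : ℝ) := by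
    rw [hr₂]; push_cast
    exact Nat.lt_floor_add_one _
  have hr2b : (r₂ : ℝ) ≤ T / C + 1 := by
    rw [hr₂]; push_cast
    have := Nat.floor_le hTC0.le
    linarith
  have ht1 : ((p : ℝ) * (r₁ : ℝ) ^ e) ^ a < T := by
    rw [ha, root1 he hpR.le (by positivity), ← ha, ← hP, mul_comm]
    rwa [lt_div_iff₀ hP0] at hr1a
  have ht2 : T < (((p : ℝ) + 1) * (r₂ : ℝ) ^ e) ^ a := by
    rw [ha, root1 he (by positivity) (by positivity), ← ha, ← hC, mul_comm]
    rwa [div_lt_iff₀ hC0] at hr2a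
  refine ⟨r₁, r₂, ?_, by omega, ?_, ?_, ?_, ?_, ?_⟩
  · have : (r₂ : ℝ) < r₁ := by linarith
    exact_mod_cast this
  · have h : ((p : ℝ) * (r₁ : ℝ) ^ e) ^ a < (((p : ℝ) + 1) * (r₂ : ℝ) ^ e) ^ a := ht1.trans ht2
    rw [Real.rpow_lt_rpow_iff (by positivity) (by positivity) ha0] at h
    exact_mod_cast h
  · have h : (M : ℝ) * p < r₁ + 1 := hTP.trans_le hr1b
    have h' : M * p < r₁ + 1 := by exact_mod_cast h
    omega
  · have h : (r₂ : ℝ) < M * (p + 1) + 1 := by linarith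
    have h' : r₂ < M * (p + 1) + 1 := by exact_mod_cast h
    omega
  · rw [key1 _ (by positivity)]
    push_cast
    exact ht1
  · rw [key2 _ (by positivity)]
    push_cast
    exact ht2

end Pool.Agent.K4H23.NZ
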